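import Pool.Agent.Q164.Stable
import Mathlib.Analysis.SpecialFunctions.Trigonometric.Chebyshev.Basic
import Mathlib.Analysis.SpecialFunctions.Complex.Log
import Mathlib.Analysis.SpecialFunctions.Trigonometric.Complex
import Mathlib.Topology.Connected.Clopen
import Mathlib.Topology.Connected.TotallyDisconnected
import Mathlib.Topology.Order.IntermediateValue

/-!
The circle-rooted parameter sets `S(p)` can have arbitrarily many components.
-/

namespace Pool.Agent.Results.MP_9de7c4_an.ManyGaps

open Polynomial Filter Topology Pool.Agent.Q164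

/-- `p` has darga `n`: `p ≠ 0` and lowest degree plus degree equals `n`. -/
def HasDarga (p : ℂ[X]) (n : ℕ) : Prop := p ≠ 0 ∧ p.natTrailingDegree + p.natDegree = n

/-- `p` is self-inversive of darga `n`. -/
def SelfInversive (p : ℂ[X]) (n : ℕ) : Prop :=
  HasDarga p n ∧ ∀ j ≤ n, p.coeff j = starRingEnd ℂ (p.coeff (n - j))

/-- `p` is trim: `p(0) = 0`. -/
def Trim (p : ℂ[X]) : Prop := p.eval 0 = 0

/-- All roots are on the unit circle. -/
def CircleRooted (p : ℂ[X]) : Prop := ∀ z : ℂ, p.eval z = 0 → ‖z‖ = 1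

/-- `p_α = α (x^n + 1) + p`. -/
noncomputable def pAlpha (p : ℂ[X]) (n : ℕ) (α : ℝ) : ℂ[X] := C (α : ℂ) * (X ^ n + 1) + p

/-- The parameter set `S(p)`. -/
def S (p : ℂ[X]) (n : ℕ) : Set ℝ := {α | 0 < α ∧ CircleRooted (pAlpha p n α)}

/-! ### The polynomials -/

section

variable (m : ℕ)

/-- Chebyshev polynomial divided by `X`. -/
noncomputable def R : ℝ[X] := (Chebyshev.T ℝ m).divX

theorem T_eq {m : ℕ} (hm : Odd m) : Chebyshev.T ℝ m = X * R m := by
  have h := divX_mul_X_add (Chebyshev.T ℝ m)
  have h0 : (Chebyshev.T ℝ m).coeff 0 = 0 := by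
    rw [coeff_zero_eq_eval_zero]
    exact Chebyshev.T_eval_zero_of_odd ℝ (by exact_mod_cast hm)
  rw [h0, C_0, add_zero, mul_comm] at h
  exact h.symm

theorem R_natDegree : (R m).natDegree ≤ m - 1 := by
  rw [R, natDegree_divX_eq_natDegree_tsub_one, Chebyshev.natDegree_T]
  simp

/-- The unperturbed polynomial. -/
noncomputable def G (α : ℝ) : ℝ[X] := R m * (C (2 * α) * X - C 4)

theorem G_natDegree {m : ℕ} (hm : 0 < m) (α : ℝ) : (G m α).natDegree ≤ m := by
  refine natDegree_mul_le.trans ?_
  have h1 := R_natDegree m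
  have h2 : (C (2 * α) * X - C 4 : ℝ[X]).natDegree ≤ 1 := by compute_degree
  omega

/-- The trim self-inversive polynomial without its middle perturbation. -/
noncomputable def P0 : ℂ[X] := ∑ k ∈ Finset.range m, C (-4 * (-1) ^ k : ℂ) * X ^ (2 * k + 1)

/-- The trim self-inversive polynomial. -/
noncomputable def P (δ : ℝ) : ℂ[X] := P0 m + C (δ : ℂ) * X ^ m

theorem P0_coeff_odd {k : ℕ} (hk : k < m) : (P0 m).coeff (2 * k + 1) = -4 * (-1) ^ k := by
  rw [P0, finsetSum_coeff, Finset.sum_eq_single_of_mem k (Finset.mem_range.2 hk)]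
  · rw [coeff_C_mul, coeff_X_pow_self, mul_one]
  · intro j _ hj
    rw [coeff_C_mul, coeff_X_pow, if_neg (by omega), mul_zero]

theorem P0_coeff_odd_ge {k : ℕ} (hk : m ≤ k) : (P0 m).coeff (2 * k + 1) = 0 := by
  rw [P0, finsetSum_coeff]
  apply Finset.sum_eq_zero
  intro j hj
  rw [Finset.mem_range] at hj
  rw [coeff_C_mul, coeff_X_pow, if_neg (by omega), mul_zero]

theorem P0_coeff_even (k : ℕ) : (P0 m).coeff (2 * k) = 0 := by
  rw [P0, finsetSum_coeff]
  apply Finset.sum_eq_zero
  intro j hj
  rw [coeff_C_mul, coeff_X_pow, if_neg (by omega), mul_zero]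

variable {m}

theorem P_coeff (δ : ℝ) (j : ℕ) : (P m δ).coeff j = (P0 m).coeff j + if j = m then (δ : ℂ) else 0 := by
  rw [P, coeff_add, coeff_C_mul, coeff_X_pow]
  split_ifs <;> simp

theorem P_natDegree (hm : 1 < m) (hodd : Odd m) (δ : ℝ) :
    (P m δ).natDegree = 2 * m - 1 ∧ (P m δ).natTrailingDegree = 1 ∧ P m δ ≠ 0 := by
  obtain ⟨k, hk⟩ := hodd
  have h1 : (P m δ).coeff (2 * m - 1) ≠ 0 := by
    have e : 2 * m - 1 = 2 * (m - 1) + 1 := by omega
    rw [P_coeff, if_neg (by omega), add_zero, e, P0_coeff_odd m (by omega)]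
    simp
  have h2 : (P m δ).coeff 1 ≠ 0 := by
    have := P0_coeff_odd m (k := 0) (by omega)
    rw [mul_zero, zero_add] at this
    rw [P_coeff, if_neg (by omega), add_zero, this]
    simp
  have h0 : (P m δ).coeff 0 = 0 := by
    have := P0_coeff_even m 0
    rw [mul_zero] at this
    rw [P_coeff, if_neg (by omega), add_zero, this]
  refine ⟨?_, ?_, ?_⟩
  · apply natDegree_eq_of_le_of_coeff_ne_zero _ h1
    rw [natDegree_le_iff_coeff_eq_zero]
    intro N hN
    rw [P_coeff, if_neg (by omega), add_zero]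
    rcases Nat.even_or_odd' N with ⟨c, rfl | rfl⟩
    · exact P0_coeff_even m c
    · exact P0_coeff_odd_ge m (by omega)
  · apply le_antisymm
    · exact natTrailingDegree_le_of_ne_zero h2
    · rw [Nat.one_le_iff_ne_zero]
      intro h
      have hne : P m δ ≠ 0 := by
        intro h'
        rw [h', coeff_zero] at h2
        exact h2 rfl
      rw [natTrailingDegree_eq_zero] at h
      rcases h with h | h
      · exact hne h
      · exact h h0
  · intro h'
    rw [h', coeff_zero] at h2
    exact h2 rfl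

theorem P_selfInversive (hm : 1 < m) (hodd : Odd m) (δ : ℝ) : SelfInversive (P m δ) (2 * m) := by
  obtain ⟨h1, h2, h3⟩ := P_natDegree hm hodd δ
  refine ⟨⟨h3, by omega⟩, ?_⟩
  intro j hj
  obtain ⟨k, hk⟩ := hodd
  rw [P_coeff, P_coeff, map_add]
  congr 1
  · rcases Nat.even_or_odd' j with ⟨c, rfl | rfl⟩
    · have : 2 * m - 2 * c = 2 * (m - c) := by omega
      rw [P0_coeff_even, this, P0_coeff_even, map_zero]
    · have : 2 * m - (2 * c + 1) = 2 * (m - 1 - c) + 1 := by omega
      rw [P0_coeff_odd m (by omega), this, P0_coeff_odd m (by omega)]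
      simp only [map_mul, map_neg, map_ofNat, map_pow, map_one]
      congr 1
      have h5 : m - 1 - c = 2 * (k - c) + c ∨ c = 2 * (c - k) + (m - 1 - c) := by omega
      rcases h5 with h5 | h5
      · rw [h5, pow_add, pow_mul]; simp
      · conv_lhs => rw [h5, pow_add, pow_mul]
        simp
  · by_cases hjm : j = m
    · rw [if_pos hjm, if_pos (by omega)]
      simp
    · rw [if_neg hjm, if_neg (by omega)]
      simp

theorem P_trim (hm : 1 < m) (δ : ℝ) : Trim (P m δ) := by
  have := P0_coeff_even m 0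
  rw [mul_zero] at this
  rw [Trim, ← coeff_zero_eq_eval_zero, P_coeff, if_neg (by omega), add_zero, this]

theorem P0_eval (hodd : Odd m) (x : ℂ) : (P0 m).eval x * (x ^ 2 + 1) = -4 * x * (x ^ (2 * m) + 1) := by
  have h1 : (P0 m).eval x = -4 * x * ∑ k ∈ Finset.range m, (-x ^ 2) ^ k := by
    rw [P0, eval_finsetSum, Finset.mul_sum]
    apply Finset.sum_congr rfl
    intro k _
    rw [eval_mul, eval_pow, eval_X, eval_C, neg_pow (x ^ 2) k, ← pow_mul, pow_succ]
    ring
  have h2 := geom_sum_mul (-x ^ 2) m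
  have h3 : (-x ^ 2) ^ m = -x ^ (2 * m) := by
    rw [neg_pow, hodd.neg_one_pow, ← pow_mul]
    ring
  rw [h3] at h2
  rw [h1]
  linear_combination (4 * x) * h2

theorem cheb_inv (x : ℂ) (hx : x ≠ 0) :
    x ^ m * (2 * (Chebyshev.T ℂ m).eval ((x + x⁻¹) / 2)) = x ^ (2 * m) + 1 := by
  have h := Complex.exp_log hx
  set θ : ℂ := -Complex.I * Complex.log x with hθ
  have hI : θ * Complex.I = Complex.log x := by
    rw [hθ]
    linear_combination (-Complex.log x) * Complex.I_mul_I
  have h1 : Complex.cos θ = (x + x⁻¹) / 2 := by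
    rw [Complex.cos, hI, neg_mul, hI, Complex.exp_neg, h]
  rw [← h1, Chebyshev.T_complex_cos, Complex.cos]
  have h2 : ((m : ℤ) : ℂ) * θ * Complex.I = m * Complex.log x := by
    rw [mul_assoc, hI]; simp
  have h3 : -(((m : ℤ) : ℂ) * θ) * Complex.I = -(m * Complex.log x) := by
    rw [neg_mul, h2]
  rw [h2, h3, Complex.exp_neg, Complex.exp_nat_mul, h]
  have : x ^ m ≠ 0 := pow_ne_zero _ hx
  field_simp
  ring

/-- The relation between `p_α` and the real polynomial `G + δ`. -/
theorem relation (hodd : Odd m) (δ α : ℝ) (x : ℂ) (hx : x ≠ 0) (hx2 : x ^ 2 + 1 ≠ 0) :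
    (pAlpha (P m δ) (2 * m) α).eval x =
      x ^ m * aeval ((x + x⁻¹) / 2) (G m α + C δ : ℝ[X]) := by
  set c := (x + x⁻¹) / 2 with hc
  have hc0 : 2 * x * c = x ^ 2 + 1 := by
    rw [hc]
    field_simp
  have hcne : c ≠ 0 := by
    intro h
    rw [h, mul_zero] at hc0
    exact hx2 hc0.symm
  have hT : aeval c (Chebyshev.T ℝ m) = (Chebyshev.T ℂ m).eval c := Chebyshev.aeval_T c m
  rw [T_eq hodd, map_mul, aeval_X] at hT
  have h1 := cheb_inv (m := m) x hx
  rw [← hc, ← hT] at h1
  have hP0 := P0_eval hodd x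
  have e1 : aeval c (G m α + C δ : ℝ[X]) = aeval c (R m) * (2 * α * c - 4) + δ := by
    simp [G]
  have e2 : (pAlpha (P m δ) (2 * m) α).eval x =
      α * (x ^ (2 * m) + 1) + ((P0 m).eval x + δ * x ^ m) := by
    simp [pAlpha, P]
  rw [e1, e2]
  have e3 : (P0 m).eval x = -4 * (x ^ m * aeval c (R m)) := by
    have : (P0 m).eval x * (x ^ 2 + 1) = -4 * (x ^ m * aeval c (R m)) * (x ^ 2 + 1) := by
      rw [hP0, ← h1, ← hc0]
      ring
    exact mul_right_cancel₀ hx2 this
  rw [e3, ← h1]
  ring

theorem pAlpha_zero (hm : 1 < m) (δ α : ℝ) : (pAlpha (P m δ) (2 * m) α).eval 0 = α := by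
  have := P_trim hm δ
  rw [Trim] at this
  rw [pAlpha, eval_add, this, eval_mul, eval_add, eval_pow, eval_X, eval_C, eval_one,
    zero_pow (by omega)]
  ring

theorem hyperbolic_of_circleRooted (hodd : Odd m) {δ α : ℝ}
    (h : CircleRooted (pAlpha (P m δ) (2 * m) α)) : Hyperbolic (G m α + C δ) := by
  right
  intro c hc
  by_cases hc0 : c = 0
  · rw [hc0]; rfl
  obtain ⟨s, hs⟩ := IsAlgClosed.exists_pow_nat_eq (c ^ 2 - 1) (n := 2) (by norm_num)
  set x := c + s with hx
  have hx1 : x ^ 2 + 1 = 2 * x * c := by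
    rw [hx]
    linear_combination hs
  have hxne : x ≠ 0 := by
    intro h0
    rw [h0] at hx1
    norm_num at hx1
  have hx2 : x ^ 2 + 1 ≠ 0 := by
    rw [hx1]
    exact mul_ne_zero (mul_ne_zero two_ne_zero hxne) hc0
  have hcx : (x + x⁻¹) / 2 = c := by
    field_simp
    linear_combination hx1
  have hr := relation hodd δ α x hxne hx2
  rw [hcx, hc, mul_zero] at hr
  have hn := h x hr
  have hinv : x⁻¹ = starRingEnd ℂ x := by
    rw [Complex.inv_def, Complex.normSq_eq_norm_sq, hn]
    simp
  rw [← hcx, hinv]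
  simp

theorem circleRooted_of_roots (hm : 1 < m) (hodd : Odd m) {δ α : ℝ} (hα : 0 < α)
    (h : ∀ z : ℂ, aeval z (G m α + C δ) = 0 → ∃ x : ℝ, -1 < x ∧ x < 1 ∧ z = x) :
    CircleRooted (pAlpha (P m δ) (2 * m) α) := by
  intro x hx
  have hxne : x ≠ 0 := by
    rintro rfl
    rw [pAlpha_zero hm] at hx
    have : α = 0 := by exact_mod_cast hx
    exact hα.ne' this
  by_cases hx2 : x ^ 2 + 1 = 0
  · have h1 : x ^ 2 = -1 := by linear_combination hx2
    have h2 : ‖x‖ ^ 2 = 1 := by rw [← norm_pow, h1]; simp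
    nlinarith [norm_nonneg x]
  rw [relation hodd δ α x hxne hx2] at hx
  have h1 := (mul_eq_zero.1 hx).resolve_left (pow_ne_zero _ hxne)
  obtain ⟨c, hc1, hc2, hc⟩ := h _ h1
  have h2 : (x - c) ^ 2 = ((c ^ 2 - 1 : ℝ) : ℂ) := by
    push_cast
    rw [← hc]
    field_simp
    ring
  have hre := congrArg Complex.re h2
  have him := congrArg Complex.im h2
  rw [sq, Complex.mul_re, Complex.ofReal_re] at hre
  rw [sq, Complex.mul_im, Complex.ofReal_im] at him
  simp only [Complex.sub_re, Complex.sub_im, Complex.ofReal_re, Complex.ofReal_im, sub_zero]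
    at hre him
  have hneg : c ^ 2 - 1 < 0 := by nlinarith
  have hv : x.im ≠ 0 := by
    intro h0
    rw [h0] at hre
    nlinarith [mul_self_nonneg (x.re - c)]
  have hu : x.re = c := by
    have h3 : (x.re - c) * x.im = 0 := by linarith
    rcases mul_eq_zero.1 h3 with h4 | h4
    · linarith
    · exact absurd h4 hv
  have h5 : Complex.normSq x = 1 := by
    rw [Complex.normSq_apply, hu]
    rw [hu] at hre
    linarith
  rw [Complex.normSq_eq_norm_sq] at h5
  nlinarith [norm_nonneg x]

end

/-! ### Good and bad parameters -/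

section

variable (K : ℕ)

/-- The Chebyshev degree. -/
def M : ℕ := 4 * K + 7

theorem M_odd : Odd (M K) := ⟨2 * K + 3, by unfold M; ring⟩
theorem one_lt_M : 1 < M K := by unfold M; omega

/-- `cos (j π / (2 M))`. -/
noncomputable def cs (j : ℕ) : ℝ := Real.cos (j * Real.pi / (2 * M K))

variable {K}

theorem M_pos : (0 : ℝ) < M K := by
  have := one_lt_M K
  exact_mod_cast (by omega : 0 < M K)

theorem angle_nonneg (j : ℕ) : 0 ≤ (j : ℝ) * Real.pi / (2 * M K) := by
  have := M_pos (K := K)
  have := Real.pi_pos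
  positivity

theorem angle_lt {i j : ℕ} (h : i < j) :
    (i : ℝ) * Real.pi / (2 * M K) < (j : ℝ) * Real.pi / (2 * M K) := by
  have h1 := M_pos (K := K)
  have h2 := Real.pi_pos
  have h3 : (i : ℝ) < j := by exact_mod_cast h
  apply div_lt_div_of_pos_right _ (by positivity)
  exact mul_lt_mul_of_pos_right h3 h2

theorem angle_two_M : ((2 * M K : ℕ) : ℝ) * Real.pi / (2 * M K) = Real.pi := by
  have h1 := M_pos (K := K)
  push_cast
  field_simp

theorem angle_M : ((M K : ℕ) : ℝ) * Real.pi / (2 * M K) = Real.pi / 2 := by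
  have h1 := M_pos (K := K)
  field_simp

theorem cs_strictAnti {i j : ℕ} (h : i < j) (hj : j ≤ 2 * M K) : cs K j < cs K i := by
  apply Real.cos_lt_cos_of_nonneg_of_le_pi (angle_nonneg i) _ (angle_lt h)
  refine le_trans ?_ (angle_two_M (K := K)).le
  rcases eq_or_lt_of_le hj with h1 | h1
  · rw [h1]
  · exact (angle_lt h1).le

theorem cs_zero : cs K 0 = 1 := by simp [cs]
theorem cs_two_M : cs K (2 * M K) = -1 := by rw [cs, angle_two_M, Real.cos_pi]
theorem cs_M : cs K (M K) = 0 := by rw [cs, angle_M, Real.cos_pi_div_two]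

theorem cs_pos {j : ℕ} (h : j < M K) : 0 < cs K j := by
  rw [← cs_M (K := K)]
  exact cs_strictAnti h (by omega)

theorem cs_ne_zero {j : ℕ} (h : j ≠ M K) (h2 : j ≤ 2 * M K) : cs K j ≠ 0 := by
  rcases lt_or_gt_of_ne h with h1 | h1
  · exact (cs_pos h1).ne'
  · have := cs_strictAnti h1 h2
    rw [cs_M] at this
    exact this.ne

theorem cs_lt_one {j : ℕ} (h : 0 < j) (h2 : j ≤ 2 * M K) : cs K j < 1 := by
  rw [← cs_zero (K := K)]
  exact cs_strictAnti h h2

theorem neg_one_lt_cs {j : ℕ} (h : j < 2 * M K) : -1 < cs K j := by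
  rw [← cs_two_M (K := K)]
  exact cs_strictAnti h le_rfl

theorem T_cs (j : ℕ) : (Chebyshev.T ℝ (M K)).eval (cs K j) = Real.cos (j * Real.pi / 2) := by
  rw [cs, Chebyshev.T_real_cos]
  congr 1
  have h1 := M_pos (K := K)
  simp only [Int.cast_natCast]
  field_simp

theorem T_cs_odd (j : ℕ) : (Chebyshev.T ℝ (M K)).eval (cs K (2 * j + 1)) = 0 := by
  rw [T_cs, Real.cos_eq_zero_iff]
  exact ⟨j, by push_cast; ring⟩

theorem R_cs_odd {j : ℕ} (h : 2 * j + 1 ≠ M K) (h2 : 2 * j + 1 ≤ 2 * M K) :
    (R (M K)).eval (cs K (2 * j + 1)) = 0 := by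
  have h1 := T_cs_odd (K := K) j
  rw [T_eq (M_odd K), eval_mul, eval_X] at h1
  exact (mul_eq_zero.1 h1).resolve_left (cs_ne_zero h h2)

theorem R_one : (R (M K)).eval 1 = 1 := by
  have h1 := Chebyshev.T_eval_one ℝ (M K)
  rw [T_eq (M_odd K), eval_mul, eval_X, one_mul] at h1
  exact h1

/-- Good parameters. -/
noncomputable def good (K l : ℕ) : ℝ := 2 / cs K (4 * l + 2)
/-- Bad parameters. -/
noncomputable def bad (K l : ℕ) : ℝ := 2 / cs K (4 * l + 5)

theorem good_lt_bad {l : ℕ} (hl : l < K) : good K l < bad K l := by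
  have h1 : cs K (4 * l + 5) < cs K (4 * l + 2) := cs_strictAnti (by omega) (by unfold M; omega)
  have h2 : 0 < cs K (4 * l + 5) := cs_pos (by unfold M; omega)
  exact div_lt_div_of_pos_left two_pos h2 h1

theorem bad_lt_good {l : ℕ} (hl : l < K) : bad K l < good K (l + 1) := by
  have h1 : cs K (4 * (l + 1) + 2) < cs K (4 * l + 5) :=
    cs_strictAnti (by omega) (by unfold M; omega)
  have h2 : 0 < cs K (4 * (l + 1) + 2) := cs_pos (by unfold M; omega)
  exact div_lt_div_of_pos_left two_pos h2 h1

theorem good_mono {l l' : ℕ} (hl : l ≤ l') (hl' : l' ≤ K) : good K l ≤ good K l' := by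
  rcases eq_or_lt_of_le hl with h | h
  · rw [h]
  · have h1 : cs K (4 * l' + 2) < cs K (4 * l + 2) := cs_strictAnti (by omega) (by unfold M; omega)
    have h2 : 0 < cs K (4 * l' + 2) := cs_pos (by unfold M; omega)
    exact (div_lt_div_of_pos_left two_pos h2 h1).le

theorem two_lt_good {l : ℕ} (hl : l ≤ K) : 2 < good K l := by
  have h1 : cs K (4 * l + 2) < 1 := cs_lt_one (by omega) (by unfold M; omega)
  have h2 : 0 < cs K (4 * l + 2) := cs_pos (by unfold M; omega)
  rw [good, lt_div_iff₀ h2]
  linarith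

/-- Good parameters stay good for small `δ`. -/
theorem eventually_good {l : ℕ} (hl : l ≤ K) :
    ∀ᶠ δ in 𝓝 (0 : ℝ), good K l ∈ S (P (M K) δ) (2 * M K) := by
  classical
  set α := good K l with hα
  have hα2 : 2 < α := two_lt_good hl
  set N : Finset ℕ := insert (4 * l + 2) (((Finset.range (M K)).image fun j => 2 * j + 1).erase (M K))
    with hN
  set F : Finset ℝ := N.image (cs K) with hF
  have hNle : ∀ j ∈ N, 0 < j ∧ j < 2 * M K := by
    intro j hj
    rw [hN, Finset.mem_insert, Finset.mem_erase, Finset.mem_image] at hj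
    rcases hj with rfl | ⟨-, i, hi, rfl⟩
    · unfold M; omega
    · rw [Finset.mem_range] at hi
      omega
  have hNcard : N.card = M K := by
    have h1 : ((Finset.range (M K)).image fun j => 2 * j + 1).card = M K := by
      rw [Finset.card_image_of_injective, Finset.card_range]
      intro a b hab
      simp only at hab
      omega
    have h2 : M K ∈ (Finset.range (M K)).image fun j => 2 * j + 1 := by
      rw [Finset.mem_image]
      exact ⟨2 * K + 3, by rw [Finset.mem_range]; unfold M; omega, by unfold M; omega⟩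
    rw [hN, Finset.card_insert_of_notMem, Finset.card_erase_of_mem h2, h1]
    · have := one_lt_M K
      omega
    · rw [Finset.mem_erase, Finset.mem_image]
      rintro ⟨-, i, -, hi⟩
      omega
  have hinj : Set.InjOn (cs K) N := by
    intro i hi j hj hij
    by_contra hne
    rcases lt_or_gt_of_ne hne with h | h
    · have := cs_strictAnti h (hNle j hj).2.le
      linarith
    · have := cs_strictAnti h (hNle i hi).2.le
      linarith
  have hFcard : F.card = M K := by
    rw [hF, Finset.card_image_of_injOn hinj, hNcard]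
  have hroot : ∀ r ∈ F, (G (M K) α).eval r = 0 := by
    intro r hr
    rw [hF, Finset.mem_image] at hr
    obtain ⟨j, hj, rfl⟩ := hr
    rw [hN, Finset.mem_insert, Finset.mem_erase, Finset.mem_image] at hj
    rw [G, eval_mul]
    rcases hj with rfl | ⟨hj1, i, hi, rfl⟩
    · have h2 : 0 < cs K (4 * l + 2) := cs_pos (by unfold M; omega)
      have : eval (cs K (4 * l + 2)) (C (2 * α) * X - C 4 : ℝ[X]) = 0 := by
        simp only [eval_sub, eval_mul, eval_C, eval_X, hα, good]
        field_simp
        ring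
      rw [this, mul_zero]
    · rw [Finset.mem_range] at hi
      rw [R_cs_odd hj1 (by omega), zero_mul]
  have hG0 : G (M K) α ≠ 0 := by
    intro h
    have h1 := congrArg (fun p : ℝ[X] => p.eval 1) h
    simp only [G, eval_mul, R_one, eval_sub, eval_C, eval_X, eval_zero] at h1
    linarith
  have hGd := G_natDegree (m := M K) (by have := one_lt_M K; omega) α
  have hsimple := simple_of_card hG0 hroot (by rw [hFcard]; exact hGd)
  have hst := stable_roots (G := G (M K) α) (m := M K) (F := F) (a := -1) (b := 1)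
    (by have := one_lt_M K; omega) (by
      intro r hr
      refine ⟨hroot r hr, ?_, ?_, hsimple r hr⟩
      · rw [hF, Finset.mem_image] at hr
        obtain ⟨j, hj, rfl⟩ := hr
        exact neg_one_lt_cs (hNle j hj).2
      · rw [hF, Finset.mem_image] at hr
        obtain ⟨j, hj, rfl⟩ := hr
        exact cs_lt_one (hNle j hj).1 (hNle j hj).2.le) hFcard hGd
  filter_upwards [hst] with δ hδ
  exact ⟨by linarith, circleRooted_of_roots (one_lt_M K) (M_odd K) (by linarith) hδ⟩

/-- Bad parameters are bad for every `δ > 0`. -/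
theorem bad_notMem {l : ℕ} (hl : l < K) {δ : ℝ} (hδ : 0 < δ) :
    bad K l ∉ S (P (M K) δ) (2 * M K) := by
  rintro ⟨-, h⟩
  have hyp := hyperbolic_of_circleRooted (M_odd K) h
  set α := bad K l with hα
  set c := cs K (4 * l + 5) with hc
  have hcpos : 0 < c := cs_pos (by unfold M; omega)
  have hαc : 2 * α * c - 4 = 0 := by
    rw [hα, bad, ← hc]
    field_simp
    ring
  have hαpos : 0 < α := by
    rw [hα, bad, ← hc]
    positivity
  have hR : (R (M K)).eval c = 0 := by
    have := R_cs_odd (K := K) (j := 2 * l + 2) (by unfold M; omega) (by unfold M; omega)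
    rw [show 2 * (2 * l + 2) + 1 = 4 * l + 5 by ring] at this
    exact this
  have hlag := hyp.laguerre c
  have d1 : (derivative (G (M K) α + C δ)).eval c = 0 := by
    simp only [G, derivative_add, derivative_mul, derivative_sub, derivative_C, derivative_X,
      eval_add, eval_mul, eval_sub, eval_C, eval_X, hR, zero_mul, add_zero,
      zero_add, sub_zero, mul_one]
    rw [hαc, mul_zero]
  have d0 : (G (M K) α + C δ).eval c = δ := by
    simp only [G, eval_add, eval_mul, hR, zero_mul, zero_add, eval_C]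
  have d2 : (derivative (derivative (G (M K) α + C δ))).eval c =
      4 * α * (derivative (R (M K))).eval c := by
    simp only [G, derivative_add, derivative_mul, derivative_sub, derivative_C, derivative_X,
      eval_add, eval_mul, eval_sub, eval_C, eval_X, zero_mul, mul_zero, add_zero,
      zero_add, sub_zero, mul_one]
    rw [hαc]
    ring
  have hR' : 0 < (derivative (R (M K))).eval c := by
    have e1 : (derivative (Chebyshev.T ℝ (M K))).eval c = c * (derivative (R (M K))).eval c := by
      rw [T_eq (M_odd K), derivative_mul, derivative_X, one_mul, eval_add, hR, zero_add, eval_mul,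
        eval_X]
    have e2 : (derivative (Chebyshev.T ℝ (M K))).eval c =
        (M K : ℝ) * (Chebyshev.U ℝ (M K - 1)).eval c := by
      rw [Chebyshev.T_derivative_eq_U, eval_mul]
      simp
    have e3 : (Chebyshev.U ℝ ((M K : ℤ) - 1)).eval c *
        Real.sin (((4 * l + 5 : ℕ) : ℝ) * Real.pi / (2 * M K)) = 1 := by
      rw [hc, cs, Chebyshev.U_real_cos]
      have h1 := M_pos (K := K)
      have : (((((M K : ℤ) - 1 : ℤ)) : ℝ) + 1) * (((4 * l + 5 : ℕ) : ℝ) * Real.pi / (2 * M K)) =
          Real.pi / 2 + ((l + 1 : ℕ) : ℝ) * (2 * Real.pi) := by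
        push_cast
        field_simp
        ring
      rw [this, Real.sin_add_nat_mul_two_pi, Real.sin_pi_div_two]
    have hsin : 0 < Real.sin (((4 * l + 5 : ℕ) : ℝ) * Real.pi / (2 * M K)) := by
      apply Real.sin_pos_of_pos_of_lt_pi
      · have h1 := M_pos (K := K)
        have h2 := Real.pi_pos
        positivity
      · refine lt_of_lt_of_le (angle_lt (j := 2 * M K) ?_) (angle_two_M (K := K)).le
        unfold M; omega
    have hU : 0 < (Chebyshev.U ℝ ((M K : ℤ) - 1)).eval c := by
      by_contra hcon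
      push Not at hcon
      have := mul_nonpos_of_nonpos_of_nonneg hcon hsin.le
      linarith
    have h4 : 0 < c * (derivative (R (M K))).eval c := by
      rw [← e1, e2]
      exact mul_pos M_pos hU
    exact (mul_pos_iff_of_pos_left hcpos).1 h4
  rw [d1, d0, d2] at hlag
  have : 0 < δ * (4 * α * (derivative (R (M K))).eval c) := by positivity
  linarith

end

/-- `S(p)` can have arbitrarily many connected components. -/
theorem result : ∀ K : ℕ, ∃ (n : ℕ) (p : ℂ[X]), SelfInversive p n ∧ Trim p ∧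
    (K : Cardinal) ≤ Cardinal.mk (ConnectedComponents (S p n)) := by
  intro K
  have h1 : ∀ᶠ δ in 𝓝[>] (0 : ℝ), (∀ l ∈ Finset.range (K + 1),
      good K l ∈ S (P (M K) δ) (2 * M K)) ∧ 0 < δ := by
    refine Eventually.and ?_ self_mem_nhdsWithin
    apply Eventually.filter_mono nhdsWithin_le_nhds
    rw [Filter.eventually_all_finset]
    intro l hl
    rw [Finset.mem_range] at hl
    exact eventually_good (by omega)
  obtain ⟨δ, hgood, hδ⟩ := h1.exists
  refine ⟨2 * M K, P (M K) δ, P_selfInversive (one_lt_M K) (M_odd K) δ, P_trim (one_lt_M K) δ, ?_⟩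
  set A := S (P (M K) δ) (2 * M K) with hA
  let f : Fin K → ConnectedComponents A := fun l =>
    ((⟨good K l, hgood l (Finset.mem_range.2 (by omega))⟩ : A) : ConnectedComponents A)
  have key : ∀ l l' : Fin K, l < l' → f l ≠ f l' := by
    intro l l' hll h
    have h2 : connectedComponent (⟨good K l, hgood l (Finset.mem_range.2 (by omega))⟩ : A) =
        connectedComponent (⟨good K l', hgood l' (Finset.mem_range.2 (by omega))⟩ : A) :=
      ConnectedComponents.coe_eq_coe.1 h
    have h3 : IsPreconnected (Subtype.val '' connectedComponent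
        (⟨good K l, hgood l (Finset.mem_range.2 (by omega))⟩ : A)) :=
      isPreconnected_connectedComponent.image _ continuous_subtype_val.continuousOn
    have h4 : good K l ∈ Subtype.val '' connectedComponent
        (⟨good K l, hgood l (Finset.mem_range.2 (by omega))⟩ : A) :=
      ⟨_, mem_connectedComponent, rfl⟩
    have h5 : good K l' ∈ Subtype.val '' connectedComponent
        (⟨good K l, hgood l (Finset.mem_range.2 (by omega))⟩ : A) := by
      rw [h2]
      exact ⟨_, mem_connectedComponent, rfl⟩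
    have h6 := h3.Icc_subset h4 h5
    have hl : (l : ℕ) < K := l.2
    have h7 : bad K l ∈ Set.Icc (good K l) (good K l') := by
      refine ⟨(good_lt_bad hl).le, (bad_lt_good hl).le.trans (good_mono ?_ l'.2.le)⟩
      exact hll
    obtain ⟨x, -, hx⟩ := h6 h7
    have h8 := x.2
    rw [hx] at h8
    exact bad_notMem hl hδ h8
  have hinj : Function.Injective f := by
    intro l l' h
    by_contra hne
    rcases lt_or_gt_of_ne hne with h1 | h1
    · exact key _ _ h1 h
    · exact key _ _ h1 h.symm
  have := Cardinal.mk_le_of_injective hinj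
  simpa using this

end Pool.Agent.Results.MP_9de7c4_an.ManyGaps
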